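import Pool.Agent.MP_c853c5_nt.DV.F4889.P0
import Pool.Agent.MP_c853c5_nt.DV.L34

set_option autoImplicit false
set_option maxRecDepth 100000

namespace Pool.Agent.MP_c853c5_nt.X.F4889

open Pool.Agent.MP_c853c5_nt.REG

open Pool.Agent.MP_c853c5_nt.REG.CT

theorem g0 : p0.Good34 488900 := Or.inr (PP.of_chk4 2 2 [(1,0,[2,2]),(8,0,[0,1,1]),(5,0,[0,1,0,18]),(1,0,[0,0,0,0,1]),(1,0,[0,0,1]),(1,0,[0,0,0,1]),(1,0,[0,0,0,0,1]),(1,0,[0,0,0,0,0,1]),(3,0,[0,0,0,14,0,1]),(1,0,[0,0,0,0,0,0,1]),(1,0,[0,0,0,0,0,0,0,1])] (by decide +kernel))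
theorem g1 : p1.Good34 488900 := Or.inr (PP.of_chk4 2 3 [(1,0,[2,2]),(8,0,[0,1,1]),(37,18,[0,11,0,0,0,18]),(1,0,[0,0,0,1]),(1,0,[0,0,1]),(37,5,[0,1,0,0,0,5]),(1,0,[0,0,0,1]),(1,0,[0,0,0,0,1]),(1,0,[0,0,0,0,0,1]),(1,0,[0,0,0,0,0,0,1]),(1,0,[0,0,0,0,0,0,0,1])] (by decide +kernel))
theorem g2 : p2.Good34 488900 := Or.inr (PP.of_chk4 1 2 [(1,0,[2,6,0,4]),(1,0,[0,1]),(1,0,[0,1,0,2]),(1,0,[0,0,0,0,1]),(1,0,[0,0,1]),(1,0,[0,0,0,1]),(1,0,[0,0,0,0,1]),(1,0,[0,0,0,0,0,1]),(3,0,[0,0,0,14,0,1]),(1,0,[0,0,0,0,0,0,1]),(1,0,[0,0,0,0,0,0,0,1])] (by decide +kernel))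
theorem g3 : p3.Good34 488900 := Or.inr (PP.of_chk4 3 3 [(1,0,[2,2]),(9,0,[0,1,2]),(51,40,[0,13,0,0,40]),(1,0,[0,0,1]),(9,0,[0,1,29]),(51,7,[0,1,0,0,7]),(1,0,[0,0,1]),(1,0,[0,0,0,1]),(1,0,[0,0,0,0,1]),(1,0,[0,0,0,0,0,1]),(1,0,[0,0,0,0,0,0,1])] (by decide +kernel))
theorem g4 : p4.Good34 488900 := Or.inr (PP.of_chk4 2 2 [(1,0,[3,3]),(14,0,[0,1,1]),(11,0,[0,1,0,42]),(1,0,[0,0,0,0,1]),(1,0,[0,0,1]),(1,0,[0,0,0,1]),(1,0,[0,0,0,0,1]),(1,0,[0,0,0,0,0,1]),(3,0,[0,0,0,14,0,1]),(1,0,[0,0,0,0,0,0,1]),(1,0,[0,0,0,0,0,0,0,1])] (by decide +kernel))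
theorem g5 : p5.Good34 488900 := Or.inr (PP.of_chk4 3 2 [(1,0,[2,2]),(9,0,[0,1,0,2]),(1,0,[0,0,1]),(1,0,[0,0,0,1]),(9,0,[0,1,0,29]),(19,3,[0,0,3,0,1]),(1,0,[0,0,0,1]),(1,0,[0,0,0,0,1]),(19,14,[0,0,14,0,11]),(1,0,[0,0,0,0,0,1]),(1,0,[0,0,0,0,0,0,1])] (by decide +kernel))
theorem g6 : p6.Good34 488900 := Or.inr (PP.of_chk4 2 4 [(1,0,[2,2]),(8,0,[0,1,1]),(47,18,[0,13,0,0,0,18]),(1,0,[0,0,0,1]),(1,0,[0,0,1]),(47,5,[0,1,0,0,0,5]),(1,0,[0,0,0,1]),(1,0,[0,0,0,0,1]),(1,0,[0,0,0,0,0,1]),(1,0,[0,0,0,0,0,0,1]),(1,0,[0,0,0,0,0,0,0,1])] (by decide +kernel))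
theorem g7 : p7.Good34 488900 := Or.inr (PP.of_chk4 3 4 [(1,0,[2,2]),(9,0,[0,1,2]),(13,8,[0,3,0,0,8]),(1,0,[0,0,1]),(9,0,[0,1,29]),(65,7,[0,1,0,0,7]),(1,0,[0,0,1]),(1,0,[0,0,0,1]),(1,0,[0,0,0,0,1]),(1,0,[0,0,0,0,0,1]),(1,0,[0,0,0,0,0,0,1])] (by decide +kernel))
theorem g8 : p8.Good34 488900 := Or.inr (PP.of_chk4 2 5 [(31,0,[30,114,0,0,32]),(31,2,[0,11,0,0,2]),(31,14,[0,15,0,0,14]),(1,0,[0,0,1]),(1,0,[0,1]),(31,3,[0,1,0,0,3]),(1,0,[0,0,1]),(1,0,[0,0,0,1]),(1,0,[0,0,0,0,1]),(1,0,[0,0,0,0,0,1]),(1,0,[0,0,0,0,0,0,1])] (by decide +kernel))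
theorem g9 : p9.Good34 488900 := Or.inr (PP.of_chk4 3 5 [(1,0,[2,2]),(9,0,[0,1,2]),(79,40,[0,17,0,0,40]),(1,0,[0,0,1]),(9,0,[0,1,29]),(79,7,[0,1,0,0,7]),(1,0,[0,0,1]),(1,0,[0,0,0,1]),(1,0,[0,0,0,0,1]),(1,0,[0,0,0,0,0,1]),(1,0,[0,0,0,0,0,0,1])] (by decide +kernel))
theorem g10 : p10.Good34 488900 := Or.inr (PP.of_chk4 3 3 [(1,0,[0,1]),(9,0,[0,0,1,2]),(1,0,[0,0,1]),(1,0,[0,0,0,0,1]),(1,0,[0,0,0,1]),(36,5,[0,1,5]),(1,0,[0,0,0,0,1]),(1,0,[0,0,0,0,0,1]),(36,29,[0,13,29]),(1,0,[0,0,0,0,0,0,1]),(1,0,[0,0,0,0,0,0,0,1])] (by decide +kernel))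
theorem g11 : p11.Good34 488900 := Or.inr (PP.of_chk4 4 4 [(1,0,[0,1]),(11,0,[0,0,1,2]),(1,0,[0,0,1]),(1,0,[0,0,0,0,1]),(1,0,[0,0,0,1]),(55,6,[0,1,6]),(1,0,[0,0,0,0,1]),(1,0,[0,0,0,0,0,1]),(55,47,[0,17,47]),(1,0,[0,0,0,0,0,0,1]),(1,0,[0,0,0,0,0,0,0,1])] (by decide +kernel))
theorem g12 : p12.Good34 488900 := Or.inr (PP.of_chk4 3 4 [(1,0,[0,1]),(11,1,[0,0,3,0,0,1]),(11,9,[0,0,5,0,0,9]),(1,0,[0,0,0,1]),(1,0,[0,0,1]),(33,4,[0,0,1,0,0,4]),(1,0,[0,0,0,1]),(1,0,[0,0,0,0,1]),(1,0,[0,0,0,0,0,1]),(1,0,[0,0,0,0,0,0,1]),(1,0,[0,0,0,0,0,0,0,1])] (by decide +kernel))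
theorem g13 : p13.Good34 488900 := Or.inr (PP.of_chk4 3 6 [(1,0,[2,2]),(9,0,[0,1,2]),(93,40,[0,19,0,0,40]),(1,0,[0,0,1]),(9,0,[0,1,29]),(93,7,[0,1,0,0,7]),(1,0,[0,0,1]),(1,0,[0,0,0,1]),(1,0,[0,0,0,0,1]),(1,0,[0,0,0,0,0,1]),(1,0,[0,0,0,0,0,0,1])] (by decide +kernel))
theorem g14 : p14.Good34 488900 := Or.inr (PP.of_chk4 2 6 [(37,0,[42,134,0,0,32]),(37,2,[0,13,0,0,2]),(37,14,[0,17,0,0,14]),(1,0,[0,0,1]),(1,0,[0,1]),(37,3,[0,1,0,0,3]),(1,0,[0,0,1]),(1,0,[0,0,0,1]),(1,0,[0,0,0,0,1]),(1,0,[0,0,0,0,0,1]),(1,0,[0,0,0,0,0,0,1])] (by decide +kernel))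
theorem g15 : p15.Good34 488900 := Or.inr (PP.of_chk4 4 5 [(1,0,[0,1]),(10,1,[0,0,11,1]),(10,9,[0,0,19,9]),(1,0,[0,0,1]),(10,1,[0,0,51,1]),(10,1,[0,0,1,1]),(1,0,[0,0,1]),(7,0,[0,1,0,0,36]),(1,0,[0,0,0,1]),(1,0,[0,0,0,0,1]),(1,0,[0,0,0,0,0,1])] (by decide +kernel))
theorem g16 : p16.Good34 488900 := Or.inr (PP.of_chk4 5 5 [(1,0,[0,1]),(11,0,[0,0,1,10]),(1,0,[0,0,1]),(1,0,[0,0,0,1]),(11,0,[0,0,1,65]),(78,7,[0,1,7]),(1,0,[0,0,0,1]),(1,0,[0,0,0,0,1]),(26,23,[0,7,23]),(1,0,[0,0,0,0,0,1]),(1,0,[0,0,0,0,0,0,1])] (by decide +kernel))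
theorem g17 : p17.Good34 488900 := Or.inr (PP.of_chk4 5 6 [(1,0,[0,1]),(12,1,[0,0,13,1]),(12,11,[0,0,23,11]),(1,0,[0,0,1]),(12,1,[0,0,73,1]),(12,1,[0,0,1,1]),(1,0,[0,0,1]),(8,0,[0,1,0,0,49]),(1,0,[0,0,0,1]),(1,0,[0,0,0,0,1]),(1,0,[0,0,0,0,0,1])] (by decide +kernel))
theorem g18 : p18.Good34 488900 := Or.inr (PP.of_chk4 6 5 [(1,0,[0,1]),(13,0,[0,0,1,12]),(1,0,[0,0,1]),(1,0,[0,0,0,1]),(13,0,[0,0,1,90]),(105,8,[0,1,8]),(1,0,[0,0,0,1]),(1,0,[0,0,0,0,1]),(105,79,[0,23,79]),(1,0,[0,0,0,0,0,1]),(1,0,[0,0,0,0,0,0,1])] (by decide +kernel))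
theorem g19 : p19.Good34 488900 := Or.inr (PP.of_chk4 6 6 [(1,0,[0,1]),(13,0,[0,0,1,12]),(1,0,[0,0,1]),(1,0,[0,0,0,1]),(13,0,[0,0,1,90]),(25,1,[0,0,1,0,1]),(1,0,[0,0,0,1]),(9,0,[0,1,0,0,0,55]),(1,0,[0,0,0,0,1]),(1,0,[0,0,0,0,0,1]),(1,0,[0,0,0,0,0,0,1])] (by decide +kernel))
theorem g20 : p20.Good34 488900 := Or.inr (PP.of_chk4 3 7 [(7,0,[5,107,0,9]),(14,1,[0,15,0,1]),(2,1,[0,3,0,1]),(1,0,[0,1]),(14,1,[0,57,0,1]),(14,1,[0,1,0,1]),(1,0,[0,1]),(1,0,[0,0,1]),(1,0,[0,0,0,1]),(1,0,[0,0,0,0,1]),(1,0,[0,0,0,0,0,1])] (by decide +kernel))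
theorem g21 : p21.Good34 488900 := Or.inr (PP.of_chk4 2 8 [(8,0,[9,87,0,7]),(16,1,[0,17,0,1]),(16,5,[0,21,0,5]),(1,0,[0,1]),(16,1,[0,49,0,1]),(16,1,[0,1,0,1]),(1,0,[0,1]),(1,0,[0,0,1]),(1,0,[0,0,0,1]),(1,0,[0,0,0,0,1]),(1,0,[0,0,0,0,0,1])] (by decide +kernel))
theorem a0 : t0.All (PP.Good34 488900) :=
  ⟨⟨⟨⟨g0, g1⟩, ⟨g2, ⟨g3, g4⟩⟩⟩, ⟨⟨g5, ⟨g6, g7⟩⟩, ⟨g8, ⟨g9, g10⟩⟩⟩⟩, ⟨⟨⟨g11, g12⟩, ⟨g13, ⟨g14, g15⟩⟩⟩, ⟨⟨g16, ⟨g17, g18⟩⟩, ⟨g19, ⟨g20, g21⟩⟩⟩⟩⟩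

end Pool.Agent.MP_c853c5_nt.X.F4889
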