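import Pool.Agent.MP_c853c5_nt.X.Chk

set_option autoImplicit false
set_option maxRecDepth 100000

namespace Pool.Agent.MP_c853c5_nt.X.F4889

open Pool.Agent.MP_c853c5_nt.REG

noncomputable def p0 : PP := ⟨3,[(0x5007000,2822050),(0x3001000,1533200),(0x1000,100000),(0x1000000,500000),(0x1003,1533200),(0x1,508000),(0x1000001,996900)]⟩
noncomputable def p1 : PP := ⟨3,[(0x5007000,2822050),(0x3001000,1533200),(0x1000000,500000),(0x1004,2044300),(0x7001,999900),(0x1,508000),(0x1000001,996900)]⟩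
noncomputable def p2 : PP := ⟨3,[(0x1001000,533200),(0x2001000,1022100),(0x1000,100000),(0x1000000,500000),(0x1003,1533200),(0x1,508000),(0x1000001,996900)]⟩
noncomputable def p3 : PP := ⟨3,[(0x7009000,3844250),(0x1000000,500000),(0x1004,2044300),(0x7001,999900),(0x1,508000),(0x1000001,996900)]⟩
noncomputable def p4 : PP := ⟨3,[(0xb00d000,5970033),(0x3001000,1533200),(0x1000,100000),(0x1000000,500000),(0x1003,1533200),(0x1,508000),(0x1000001,996900)]⟩
noncomputable def p5 : PP := ⟨3,[(0x7009000,3844250),(0x1007000,999900),(0x1000000,500000),(0x1003,1533200),(0x1,508000),(0x1000001,996900)]⟩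
noncomputable def p6 : PP := ⟨3,[(0x5007000,2822050),(0x3001000,1533200),(0x1000000,500000),(0x1005,2555400),(0x9001,999900),(0x1,508000),(0x1000001,996900)]⟩
noncomputable def p7 : PP := ⟨3,[(0x7009000,3844250),(0x1000000,500000),(0x1005,2555400),(0x9001,999900),(0x1,508000),(0x1000001,996900)]⟩
noncomputable def p8 : PP := ⟨3,[(0x3001000,1533200),(0x1000000,500000),(0x1006,3066500),(0xb001,999900),(0x1,508000),(0x1000001,996900)]⟩
noncomputable def p9 : PP := ⟨3,[(0x7009000,3844250),(0x1000000,500000),(0x1006,3066500),(0xb001,999900),(0x1,508000),(0x1000001,996900)]⟩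
noncomputable def p10 : PP := ⟨3,[(0x6005,2644200),(0x1007000,999900),(0x4001000,2044300),(0x1000000,500000),(0x1004,2044300),(0x1,508000),(0x1000001,996900)]⟩
noncomputable def p11 : PP := ⟨3,[(0x7006,3177500),(0x1009000,999900),(0x5001000,2555400),(0x1000000,500000),(0x1005,2555400),(0x1,508000),(0x1000001,996900)]⟩
noncomputable def p12 : PP := ⟨3,[(0x6005,2644200),(0x4001000,2044300),(0x1000000,500000),(0x1005,2555400),(0x9001,999900),(0x1,508000),(0x1000001,996900)]⟩
noncomputable def p13 : PP := ⟨3,[(0x7009000,3844250),(0x1000000,500000),(0x1007,3577600),(0xd001,999900),(0x1,508000),(0x1000001,996900)]⟩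
noncomputable def p14 : PP := ⟨3,[(0x3001000,1533200),(0x1000000,500000),(0x1007,3577600),(0xd001,999900),(0x1,508000),(0x1000001,996900)]⟩
noncomputable def p15 : PP := ⟨3,[(0x7006,3177500),(0x1000000,500000),(0xb001,999900),(0x1,508000),(0x1000001,996900)]⟩
noncomputable def p16 : PP := ⟨3,[(0x8007,3710800),(0x100b000,999900),(0x1000000,500000),(0x1006,3066500),(0x1,508000),(0x1000001,996900)]⟩
noncomputable def p17 : PP := ⟨3,[(0x8007,3710800),(0x1000000,500000),(0xd001,999900),(0x1,508000),(0x1000001,996900)]⟩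
noncomputable def p18 : PP := ⟨3,[(0x9008,4244100),(0x100d000,999900),(0x1000000,500000),(0x1006,3066500),(0x1,508000),(0x1000001,996900)]⟩
noncomputable def p19 : PP := ⟨3,[(0x9008,4244100),(0x100d000,999900),(0x1000000,500000),(0xd001,999900),(0x1,508000),(0x1000001,996900)]⟩
noncomputable def p20 : PP := ⟨3,[(0x1000000,500000),(0x1008,4088700),(0xf001,999900),(0x1,508000),(0x1000001,996900)]⟩
noncomputable def p21 : PP := ⟨3,[(0x1000000,500000),(0x1009,4599800),(0x11001,999900),(0x1,508000),(0x1000001,996900)]⟩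
noncomputable def t0 : BT PP := (.nd 11 (.nd 5 (.nd 2 (.nd 1 (.lf p0) (.lf p1)) (.nd 1 (.lf p2) (.nd 1 (.lf p3) (.lf p4)))) (.nd 3 (.nd 1 (.lf p5) (.nd 1 (.lf p6) (.lf p7))) (.nd 1 (.lf p8) (.nd 1 (.lf p9) (.lf p10))))) (.nd 5 (.nd 2 (.nd 1 (.lf p11) (.lf p12)) (.nd 1 (.lf p13) (.nd 1 (.lf p14) (.lf p15)))) (.nd 3 (.nd 1 (.lf p16) (.nd 1 (.lf p17) (.lf p18))) (.nd 1 (.lf p19) (.nd 1 (.lf p20) (.lf p21))))))

end Pool.Agent.MP_c853c5_nt.X.F4889
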