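import Pool.Agent.MP_c853c5_nt.DV.F4889.P0
import Pool.Agent.MP_c853c5_nt.DU.P4889.Tab

set_option autoImplicit false
set_option maxRecDepth 100000

namespace Pool.Agent.MP_c853c5_nt.X.F4889

open Pool.Agent.MP_c853c5_nt.REG

noncomputable def tab : BT PP := .nd 232 P4889.tab t0

end Pool.Agent.MP_c853c5_nt.X.F4889
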